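import Mathlib

/-!
# Weakly spreading linear triple systems

We show that a weakly spreading linear triple system on `n` vertices has at least `C n` triples for
an absolute constant `C > 1` and all large `n`.

Let `N` be the number of triples.  Since every two triples are crossed by a third one, every degree
is at most `4 √N`, every triple contains a vertex of degree at least `√N / 50` and a second vertex
of degree at least `√N / 400`.  So every triple has at most one vertex outside the set `A` of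
vertices of degree at least `√N / 400`, and `|A| ≤ 1200 √N`.  Consider the triples which contain
a vertex of degree one.  Two of them through a vertex `v` of `A` must be crossed by a triple with no
vertex of degree one.  This gives a positive proportion of triples with no vertex of degree one, and
counting the vertices outside `A` gives the bound.
-/

set_option autoImplicit false

namespace Pool.Agent.Results.MP_9978f8_co.LinearLowerBound

open Finset

variable {n : ℕ}

/-- `F` is a linear triple system: its members are triples, and any two of them share at most one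
vertex. -/
def IsLinearTripleSystem (F : Finset (Finset (Fin n))) : Prop :=
  (∀ T ∈ F, T.card = 3) ∧ ∀ T ∈ F, ∀ T' ∈ F, T ≠ T' → (T ∩ T').card ≤ 1

/-- The neighbourhood of a set `X` of vertices: the vertices `z` outside `X` for which some
`{x, y, z}` with distinct `x, y` in `X` is a triple of the system. -/
def nbhd (F : Finset (Finset (Fin n))) (X : Finset (Fin n)) : Finset (Fin n) :=
  univ.filter (fun z => z ∉ X ∧ ∃ x ∈ X, ∃ y ∈ X, x ≠ y ∧ {x, y, z} ∈ F)

/-- The closure of a set `X` of vertices: the intersection of all the sets containing `X` which have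
empty neighbourhood. -/
def closure (F : Finset (Finset (Fin n))) (X : Finset (Fin n)) : Finset (Fin n) :=
  univ.filter (fun v => ∀ W : Finset (Fin n), X ⊆ W → nbhd F W = ∅ → v ∈ W)

/-- `F` is weakly spreading: for every subfamily `F'` with at least two members, the closure of the
union of the members of `F'` is the whole vertex set. -/
def IsWeaklySpreading (F : Finset (Finset (Fin n))) : Prop :=
  ∀ F' ⊆ F, 2 ≤ F'.card → closure F (F'.biUnion id) = univ

/-- The degree. -/
def deg (F : Finset (Finset (Fin n))) (v : Fin n) : ℕ := (F.filter (fun T => v ∈ T)).card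

section basic

variable {F : Finset (Finset (Fin n))}

lemma uniq (hF : IsLinearTripleSystem F) {T T' : Finset (Fin n)} (hT : T ∈ F) (hT' : T' ∈ F)
    {x y : Fin n} (hxy : x ≠ y) (hx : x ∈ T) (hy : y ∈ T) (hx' : x ∈ T') (hy' : y ∈ T') :
    T = T' := by
  by_contra hne
  have h1 := hF.2 T hT T' hT' hne
  have h2 : ({x, y} : Finset (Fin n)) ⊆ T ∩ T' := by
    intro z hz
    rw [mem_insert, mem_singleton] at hz
    rw [mem_inter]
    rcases hz with rfl | rfl
    · exact ⟨hx, hx'⟩
    · exact ⟨hy, hy'⟩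
  have h3 := card_le_card h2
  rw [card_pair hxy] at h3
  omega

lemma uniq_deg_one {T T' : Finset (Fin n)} (hT : T ∈ F) (hT' : T' ∈ F) {b : Fin n}
    (hb : deg F b = 1) (h : b ∈ T) (h' : b ∈ T') : T = T' := by
  unfold deg at hb
  rw [card_eq_one] at hb
  obtain ⟨S, hS⟩ := hb
  have h1 : T ∈ F.filter (fun T => b ∈ T) := by
    rw [mem_filter]
    exact ⟨hT, h⟩
  have h2 : T' ∈ F.filter (fun T => b ∈ T) := by
    rw [mem_filter]
    exact ⟨hT', h'⟩
  rw [hS, mem_singleton] at h1 h2
  rw [h1, h2]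

lemma two_le_deg {T T' : Finset (Fin n)} (hT : T ∈ F) (hT' : T' ∈ F) (hne : T ≠ T') {b : Fin n}
    (h : b ∈ T) (h' : b ∈ T') : 2 ≤ deg F b := by
  unfold deg
  have h1 : ({T, T'} : Finset (Finset (Fin n))) ⊆ F.filter (fun T => b ∈ T) := by
    intro S hS
    rw [mem_insert, mem_singleton] at hS
    rw [mem_filter]
    rcases hS with rfl | rfl
    · exact ⟨hT, h⟩
    · exact ⟨hT', h'⟩
  have h2 := card_le_card h1
  rwa [card_pair hne] at h2

/-- A closed set containing two triples is everything. -/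
lemma closed_univ (hws : IsWeaklySpreading F) {T1 T2 : Finset (Fin n)} (h1 : T1 ∈ F)
    (h2 : T2 ∈ F) (hne : T1 ≠ T2) {W : Finset (Fin n)} (hW1 : T1 ⊆ W) (hW2 : T2 ⊆ W)
    (hW : nbhd F W = ∅) : W = univ := by
  have h3 := hws {T1, T2} (by
    intro S hS
    rw [mem_insert, mem_singleton] at hS
    rcases hS with rfl | rfl
    · exact h1
    · exact h2) (by rw [card_pair hne])
  rw [eq_univ_iff_forall]
  intro v
  have h4 : v ∈ closure F (({T1, T2} : Finset (Finset (Fin n))).biUnion id) := by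
    rw [h3]
    exact mem_univ _
  unfold closure at h4
  rw [mem_filter] at h4
  apply h4.2 W _ hW
  intro x hx
  rw [mem_biUnion] at hx
  obtain ⟨S, hS, hxS⟩ := hx
  rw [mem_insert, mem_singleton] at hS
  rcases hS with rfl | rfl
  · exact hW1 hxS
  · exact hW2 hxS

lemma key (hF : IsLinearTripleSystem F) (hws : IsWeaklySpreading F) (hn : 7 ≤ n)
    {T1 T2 : Finset (Fin n)} (h1 : T1 ∈ F) (h2 : T2 ∈ F) (hne : T1 ≠ T2) :
    ∃ T3 ∈ F, T3 ≠ T1 ∧ T3 ≠ T2 ∧ ∃ x ∈ T1, ∃ y ∈ T2, x ∈ T3 ∧ y ∈ T3 ∧ x ∉ T2 ∧ y ∉ T1 ∧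
      ∀ v ∈ T1, v ∈ T2 → v ∉ T3 := by
  have hc : nbhd F (T1 ∪ T2) ≠ ∅ := by
    intro hempty
    have h3 := closed_univ hws h1 h2 hne subset_union_left subset_union_right hempty
    have h4 := card_union_le T1 T2
    rw [h3, hF.1 T1 h1, hF.1 T2 h2, card_univ, Fintype.card_fin] at h4
    omega
  obtain ⟨z, hz⟩ := nonempty_iff_ne_empty.mpr hc
  unfold nbhd at hz
  rw [mem_filter] at hz
  obtain ⟨-, hz, x, hx, y, hy, hxy, h3⟩ := hz
  rw [mem_union, not_or] at hz
  rw [mem_union] at hx hy
  have hx3 : x ∈ ({x, y, z} : Finset (Fin n)) := by simp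
  have hy3 : y ∈ ({x, y, z} : Finset (Fin n)) := by simp
  have hz3 : z ∈ ({x, y, z} : Finset (Fin n)) := by simp
  have n1 : ({x, y, z} : Finset (Fin n)) ≠ T1 := by
    intro h
    rw [h] at hz3
    exact hz.1 hz3
  have n2 : ({x, y, z} : Finset (Fin n)) ≠ T2 := by
    intro h
    rw [h] at hz3
    exact hz.2 hz3
  have m1 : ¬(x ∈ T1 ∧ y ∈ T1) := fun h => n1 (uniq hF h3 h1 hxy hx3 hy3 h.1 h.2)
  have m2 : ¬(x ∈ T2 ∧ y ∈ T2) := fun h => n2 (uniq hF h3 h2 hxy hx3 hy3 h.1 h.2)
  by_cases hx1 : x ∈ T1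
  · have hy1 : y ∉ T1 := fun h => m1 ⟨hx1, h⟩
    have hy2 : y ∈ T2 := by tauto
    have hx2 : x ∉ T2 := fun h => m2 ⟨h, hy2⟩
    refine ⟨_, h3, n1, n2, x, hx1, y, hy2, hx3, hy3, hx2, hy1, ?_⟩
    intro v hv1 hv2 hv3
    rw [mem_insert, mem_insert, mem_singleton] at hv3
    rcases hv3 with rfl | rfl | rfl
    · exact hx2 hv2
    · exact hy1 hv1
    · exact hz.1 hv1
  · have hx2 : x ∈ T2 := by tauto
    have hy2 : y ∉ T2 := fun h => m2 ⟨hx2, h⟩
    have hy1 : y ∈ T1 := by tauto
    refine ⟨_, h3, n1, n2, y, hy1, x, hx2, hy3, hx3, hy2, hx1, ?_⟩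
    intro v hv1 hv2 hv3
    rw [mem_insert, mem_insert, mem_singleton] at hv3
    rcases hv3 with rfl | rfl | rfl
    · exact hx1 hv1
    · exact hy2 hv2
    · exact hz.1 hv1

/-- The triple through `v` and `x`. -/
def tri (F : Finset (Finset (Fin n))) (v x : Fin n) : Finset (Fin n) :=
  (F.filter (fun T => v ∈ T ∧ x ∈ T)).biUnion id

lemma tri_eq (hF : IsLinearTripleSystem F) {T : Finset (Fin n)} (hT : T ∈ F) {v x : Fin n}
    (hv : v ∈ T) (hx : x ∈ T) (hvx : v ≠ x) : tri F v x = T := by
  unfold tri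
  have : F.filter (fun T => v ∈ T ∧ x ∈ T) = {T} := by
    ext S
    rw [mem_filter, mem_singleton]
    constructor
    · rintro ⟨h1, h2, h3⟩
      exact uniq hF h1 hT hvx h2 h3 hv hx
    · rintro rfl
      exact ⟨hT, hv, hx⟩
  rw [this, singleton_biUnion]
  rfl

/-- Ordered adjacent pairs. -/
def darts (G : Finset (Finset (Fin n))) : Finset (Fin n × Fin n) := G.biUnion offDiag

lemma card_darts {G : Finset (Finset (Fin n))} (hG : ∀ T ∈ G, T.card = 3) :
    (darts G).card ≤ 6 * G.card := by
  unfold darts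
  refine card_biUnion_le.trans ?_
  rw [mul_comm, ← smul_eq_mul, ← sum_const]
  apply sum_le_sum
  intro T hT
  rw [offDiag_card, hG T hT]

/-- Double counting. -/
lemma dc (G : Finset (Finset (Fin n))) (B : Finset (Fin n)) :
    ∑ v ∈ B, (G.filter (fun T => v ∈ T)).card = ∑ T ∈ G, (T ∩ B).card := by
  simp only [card_filter]
  rw [sum_comm]
  apply sum_congr rfl
  intro T _
  rw [← card_filter]
  congr 1
  ext v
  rw [mem_filter, mem_inter]
  tauto

lemma deg_sq (hF : IsLinearTripleSystem F) (hws : IsWeaklySpreading F) (hn : 7 ≤ n) (v : Fin n) :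
    deg F v * deg F v - deg F v ≤ 6 * F.card := by
  have h1 : (F.filter (fun T => v ∈ T)).offDiag ⊆
      (darts F).image (fun p => (tri F v p.1, tri F v p.2)) := by
    rintro ⟨T1, T2⟩ hT
    rw [mem_offDiag, mem_filter, mem_filter] at hT
    simp only at hT
    obtain ⟨⟨h1, hv1⟩, ⟨h2, hv2⟩, hne⟩ := hT
    obtain ⟨T3, h3, n1, n2, x, hx1, y, hy2, hx3, hy3, hx2, hy1, hv⟩ := key hF hws hn h1 h2 hne
    have hv3 := hv v hv1 hv2
    rw [mem_image]
    refine ⟨(x, y), ?_, ?_⟩
    · unfold darts
      rw [mem_biUnion]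
      refine ⟨T3, h3, ?_⟩
      rw [mem_offDiag]
      refine ⟨hx3, hy3, ?_⟩
      intro (h : x = y)
      exact hx2 (h ▸ hy2)
    · simp only
      rw [tri_eq hF h1 hv1 hx1 (by rintro rfl; exact hv3 hx3),
        tri_eq hF h2 hv2 hy2 (by rintro rfl; exact hv3 hy3)]
  have h2 := (card_le_card h1).trans card_image_le
  rw [offDiag_card] at h2
  exact h2.trans (card_darts hF.1)

lemma reach (hF : IsLinearTripleSystem F) (hws : IsWeaklySpreading F) (hn : 7 ≤ n)
    {T1 : Finset (Fin n)} (h1 : T1 ∈ F) {D : ℕ} (hD : ∀ v, deg F v ≤ D) :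
    F.card ≤ 1 + ∑ a ∈ T1, deg F a * (3 * D) := by
  have hsub : F.erase T1 ⊆ T1.biUnion (fun a => (F.filter (fun T => a ∈ T)).biUnion
      (fun T3 => T3.biUnion (fun y => F.filter (fun T => y ∈ T)))) := by
    intro T2 hT2
    rw [mem_erase] at hT2
    obtain ⟨T3, h3, n1, n2, x, hx1, y, hy2, hx3, hy3, hx2, hy1, hv⟩ :=
      key hF hws hn h1 hT2.2 hT2.1.symm
    rw [mem_biUnion]
    refine ⟨x, hx1, ?_⟩
    rw [mem_biUnion]
    refine ⟨T3, by rw [mem_filter]; exact ⟨h3, hx3⟩, ?_⟩
    rw [mem_biUnion]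
    refine ⟨y, hy3, ?_⟩
    rw [mem_filter]
    exact ⟨hT2.2, hy2⟩
  have h2 := card_le_card hsub
  rw [card_erase_of_mem h1] at h2
  have h3 : (T1.biUnion (fun a => (F.filter (fun T => a ∈ T)).biUnion
      (fun T3 => T3.biUnion (fun y => F.filter (fun T => y ∈ T))))).card ≤
      ∑ a ∈ T1, deg F a * (3 * D) := by
    refine card_biUnion_le.trans (sum_le_sum ?_)
    intro a _
    refine card_biUnion_le.trans ?_
    unfold deg
    rw [← smul_eq_mul, ← sum_const]
    apply sum_le_sum
    intro T3 hT3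
    rw [mem_filter] at hT3
    refine card_biUnion_le.trans ?_
    rw [← hF.1 T3 hT3.1, ← smul_eq_mul, ← sum_const]
    apply sum_le_sum
    intro y _
    exact hD y
  omega

lemma second (hF : IsLinearTripleSystem F) (hws : IsWeaklySpreading F) (hn : 7 ≤ n)
    {T1 : Finset (Fin n)} (h1 : T1 ∈ F) {v : Fin n} (hv : v ∈ T1) :
    deg F v ≤ 1 + ∑ a ∈ T1.erase v, deg F a * 3 := by
  have hsub : (F.filter (fun T => v ∈ T)).erase T1 ⊆ (T1.erase v).biUnion
      (fun a => (F.filter (fun T => a ∈ T)).biUnion (fun T3 => T3.image (fun z => tri F v z))) := by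
    intro T2 hT2
    rw [mem_erase, mem_filter] at hT2
    obtain ⟨hne, h2, hv2⟩ := hT2
    obtain ⟨T3, h3, n1, n2, x, hx1, y, hy2, hx3, hy3, hx2, hy1, hv'⟩ :=
      key hF hws hn h1 h2 hne.symm
    have hv3 := hv' v hv hv2
    rw [mem_biUnion]
    refine ⟨x, ?_, ?_⟩
    · rw [mem_erase]
      refine ⟨?_, hx1⟩
      rintro rfl
      exact hv3 hx3
    rw [mem_biUnion]
    refine ⟨T3, by rw [mem_filter]; exact ⟨h3, hx3⟩, ?_⟩
    rw [mem_image]
    refine ⟨y, hy3, ?_⟩
    exact tri_eq hF h2 hv2 hy2 (by rintro rfl; exact hv3 hy3)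
  have h2 := card_le_card hsub
  have hmem : T1 ∈ F.filter (fun T => v ∈ T) := by
    rw [mem_filter]
    exact ⟨h1, hv⟩
  rw [card_erase_of_mem hmem] at h2
  have h3 : ((T1.erase v).biUnion
      (fun a => (F.filter (fun T => a ∈ T)).biUnion
        (fun T3 => T3.image (fun z => tri F v z)))).card ≤
      ∑ a ∈ T1.erase v, deg F a * 3 := by
    refine card_biUnion_le.trans (sum_le_sum ?_)
    intro a _
    refine card_biUnion_le.trans ?_
    unfold deg
    rw [← smul_eq_mul, ← sum_const]
    apply sum_le_sum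
    intro T3 hT3
    rw [mem_filter] at hT3
    refine card_image_le.trans ?_
    rw [hF.1 T3 hT3.1]
  unfold deg at h3 ⊢
  omega

lemma one_le_deg (hws : IsWeaklySpreading F) (h2 : 2 ≤ F.card) (v : Fin n) : 1 ≤ deg F v := by
  by_contra hcon
  have hd : deg F v = 0 := by omega
  unfold deg at hd
  rw [card_eq_zero, filter_eq_empty_iff] at hd
  obtain ⟨T1, h1, T2, hT2, hne⟩ := one_lt_card.mp (show 1 < F.card by omega)
  have h3 : nbhd F (univ.erase v) = ∅ := by
    unfold nbhd
    rw [filter_eq_empty_iff]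
    rintro z - ⟨hz, x, hx, y, hy, hxy, hF⟩
    have : z = v := by
      by_contra hzv
      exact hz (by rw [mem_erase]; exact ⟨hzv, mem_univ _⟩)
    subst this
    exact hd hF (by simp)
  have h4 := closed_univ hws h1 hT2 hne (W := univ.erase v)
    (by
      intro x hx
      rw [mem_erase]
      refine ⟨?_, mem_univ _⟩
      rintro rfl
      exact hd h1 hx)
    (by
      intro x hx
      rw [mem_erase]
      refine ⟨?_, mem_univ _⟩
      rintro rfl
      exact hd hT2 hx) h3
  have h5 : v ∈ univ.erase v := by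
    rw [h4]
    exact mem_univ _
  exact notMem_erase _ _ h5

lemma triangle_closed (hF : IsLinearTripleSystem F) {T1 T2 T3 W : Finset (Fin n)} (h1 : T1 ∈ F)
    (h2 : T2 ∈ F) (h3 : T3 ∈ F) {v x y b1 b2 b3 : Fin n} (hv1 : v ∈ T1) (hx1 : x ∈ T1)
    (hv2 : v ∈ T2) (hy2 : y ∈ T2) (hx3 : x ∈ T3) (hy3 : y ∈ T3) (hb1 : b1 ∈ T1) (hb2 : b2 ∈ T2)
    (hb3 : b3 ∈ T3) (hd1 : deg F b1 = 1) (hd2 : deg F b2 = 1) (hd3 : deg F b3 = 1)
    (w1 : T1 ⊆ W) (w2 : T2 ⊆ W) (w3 : T3 ⊆ W)
    (hW : ∀ p ∈ W, p = v ∨ p = x ∨ p = y ∨ p = b1 ∨ p = b2 ∨ p = b3) : nbhd F W = ∅ := by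
  unfold nbhd
  rw [filter_eq_empty_iff]
  rintro z - ⟨hz, p, hp, q, hq, hpq, h4⟩
  have hp4 : p ∈ ({p, q, z} : Finset (Fin n)) := by simp
  have hq4 : q ∈ ({p, q, z} : Finset (Fin n)) := by simp
  have hz4 : z ∈ ({p, q, z} : Finset (Fin n)) := by simp
  generalize ({p, q, z} : Finset (Fin n)) = T4 at h4 hp4 hq4 hz4
  have k1 : T4 ≠ T1 := by
    rintro rfl
    exact hz (w1 hz4)
  have k2 : T4 ≠ T2 := by
    rintro rfl
    exact hz (w2 hz4)
  have k3 : T4 ≠ T3 := by
    rintro rfl
    exact hz (w3 hz4)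
  have nb : ∀ w ∈ T4, w ∈ W → w = v ∨ w = x ∨ w = y := by
    intro w hw hwW
    rcases hW w hwW with h | h | h | h | h | h
    · exact Or.inl h
    · exact Or.inr (Or.inl h)
    · exact Or.inr (Or.inr h)
    · exact absurd (uniq_deg_one h4 h1 hd1 (h ▸ hw) hb1) k1
    · exact absurd (uniq_deg_one h4 h2 hd2 (h ▸ hw) hb2) k2
    · exact absurd (uniq_deg_one h4 h3 hd3 (h ▸ hw) hb3) k3
  have hvx : ¬(v ∈ T4 ∧ x ∈ T4 ∧ v ≠ x) :=
    fun h => k1 (uniq hF h4 h1 h.2.2 h.1 h.2.1 hv1 hx1)
  have hvy : ¬(v ∈ T4 ∧ y ∈ T4 ∧ v ≠ y) :=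
    fun h => k2 (uniq hF h4 h2 h.2.2 h.1 h.2.1 hv2 hy2)
  have hxy : ¬(x ∈ T4 ∧ y ∈ T4 ∧ x ≠ y) :=
    fun h => k3 (uniq hF h4 h3 h.2.2 h.1 h.2.1 hx3 hy3)
  rcases nb p hp4 hp with h | h | h <;> rcases nb q hq4 hq with h' | h' | h' <;>
    rw [h] at hp4 hpq <;> rw [h'] at hq4 hpq
  · exact hpq rfl
  · exact hvx ⟨hp4, hq4, hpq⟩
  · exact hvy ⟨hp4, hq4, hpq⟩
  · exact hvx ⟨hq4, hp4, hpq.symm⟩
  · exact hpq rfl
  · exact hxy ⟨hp4, hq4, hpq⟩
  · exact hvy ⟨hq4, hp4, hpq.symm⟩
  · exact hxy ⟨hq4, hp4, hpq.symm⟩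
  · exact hpq rfl

/-- Crossing of triples with a vertex of degree one. -/
lemma cherry (hF : IsLinearTripleSystem F) (hws : IsWeaklySpreading F) (hn : 7 ≤ n) (v : Fin n) :
    ((F.filter (fun T => ∃ b ∈ T, deg F b = 1)).filter (fun T => v ∈ T)).card *
      ((F.filter (fun T => ∃ b ∈ T, deg F b = 1)).filter (fun T => v ∈ T)).card -
      ((F.filter (fun T => ∃ b ∈ T, deg F b = 1)).filter (fun T => v ∈ T)).card ≤
      6 * (F.filter (fun T => ¬ ∃ b ∈ T, deg F b = 1)).card := by
  set G1 := F.filter (fun T => ∃ b ∈ T, deg F b = 1) with hG1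
  set G0 := F.filter (fun T => ¬ ∃ b ∈ T, deg F b = 1) with hG0
  have hsub : (G1.filter (fun T => v ∈ T)).offDiag ⊆
      (darts G0).image (fun p => (tri F v p.1, tri F v p.2)) := by
    rintro ⟨T1, T2⟩ hT
    rw [mem_offDiag, mem_filter, mem_filter, hG1, mem_filter, mem_filter] at hT
    simp only at hT
    obtain ⟨⟨⟨h1, b1, hb1, hd1⟩, hv1⟩, ⟨⟨h2, b2, hb2, hd2⟩, hv2⟩, hne⟩ := hT
    obtain ⟨T3, h3, n1, n2, x, hx1, y, hy2, hx3, hy3, hx2, hy1, hv⟩ := key hF hws hn h1 h2 hne
    have hv3 := hv v hv1 hv2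
    have hxv : x ≠ v := by rintro rfl; exact hv3 hx3
    have hyv : y ≠ v := by rintro rfl; exact hv3 hy3
    have hdv := two_le_deg h1 h2 hne hv1 hv2
    have hdx := two_le_deg h1 h3 n1.symm hx1 hx3
    have hdy := two_le_deg h2 h3 n2.symm hy2 hy3
    have hvb1 : v ≠ b1 := by rintro rfl; omega
    have hvb2 : v ≠ b2 := by rintro rfl; omega
    have hxb1 : x ≠ b1 := by rintro rfl; omega
    have hyb2 : y ≠ b2 := by rintro rfl; omega
    have hxy : x ≠ y := by rintro rfl; exact hx2 hy2
    rw [mem_image]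
    refine ⟨(x, y), ?_, ?_⟩
    · unfold darts
      rw [mem_biUnion]
      refine ⟨T3, ?_, ?_⟩
      · rw [hG0, mem_filter]
        refine ⟨h3, ?_⟩
        rintro ⟨b3, hb3, hd3⟩
        have hxb3 : x ≠ b3 := by rintro rfl; omega
        have hyb3 : y ≠ b3 := by rintro rfl; omega
        have sub3 : ∀ {T : Finset (Fin n)}, T ∈ F → ∀ {p q r : Fin n}, p ∈ T → q ∈ T → r ∈ T →
            p ≠ q → p ≠ r → q ≠ r → T = {p, q, r} := by
          intro T hT p q r hp hq hr hpq hpr hqr
          symm
          apply eq_of_subset_of_card_le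
          · intro w hw
            rw [mem_insert, mem_insert, mem_singleton] at hw
            rcases hw with rfl | rfl | rfl <;> assumption
          · rw [hF.1 T hT, card_insert_of_notMem (by simp [hpq, hpr]), card_pair hqr]
        have e1 := sub3 h1 hv1 hx1 hb1 hxv.symm hvb1 hxb1
        have e2 := sub3 h2 hv2 hy2 hb2 hyv.symm hvb2 hyb2
        have e3 := sub3 h3 hx3 hy3 hb3 hxy hxb3 hyb3
        set W : Finset (Fin n) := {v, x, y, b1, b2, b3} with hW
        have w1 : T1 ⊆ W := by
          rw [e1, hW]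
          intro w hw
          simp only [mem_insert, mem_singleton] at hw ⊢
          tauto
        have w2 : T2 ⊆ W := by
          rw [e2, hW]
          intro w hw
          simp only [mem_insert, mem_singleton] at hw ⊢
          tauto
        have w3 : T3 ⊆ W := by
          rw [e3, hW]
          intro w hw
          simp only [mem_insert, mem_singleton] at hw ⊢
          tauto
        have hclosed : nbhd F W = ∅ := triangle_closed hF h1 h2 h3 hv1 hx1 hv2 hy2 hx3 hy3
          hb1 hb2 hb3 hd1 hd2 hd3 w1 w2 w3 (by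
            intro p hp
            rw [hW] at hp
            simp only [mem_insert, mem_singleton] at hp
            exact hp)
        have h5 := closed_univ hws h1 h2 hne w1 w2 hclosed
        have h6 : W.card ≤ 6 := card_le_six
        rw [h5, card_univ, Fintype.card_fin] at h6
        omega
      · rw [mem_offDiag]
        exact ⟨hx3, hy3, hxy⟩
    · simp only
      rw [tri_eq hF h1 hv1 hx1 hxv.symm, tri_eq hF h2 hv2 hy2 hyv.symm]
  have h2 := (card_le_card hsub).trans card_image_le
  rw [offDiag_card] at h2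
  exact h2.trans (card_darts (fun T hT => hF.1 T (mem_filter.mp hT).1))

/-- **Main theorem.** -/
theorem main_bound (hF : IsLinearTripleSystem F) (hws : IsWeaklySpreading F) (h2 : 2 ≤ F.card)
    (hn : 30000000000000000000000 ≤ n) : (1 + 1 / 69120000 : ℝ) * n ≤ F.card := by
  have hn7 : 7 ≤ n := by omega
  set N := F.card with hN
  have hdeg1 := one_le_deg hws h2
  -- the sum of the degrees
  have hsum : ∑ v : Fin n, deg F v = 3 * N := by
    have h := dc F (univ : Finset (Fin n))
    unfold deg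
    rw [h, sum_congr rfl (g := fun _ => 3) (fun T hT => by rw [inter_univ, hF.1 T hT]), sum_const,
      smul_eq_mul, mul_comm]
  have hn3N : n ≤ 3 * N := by
    rw [← hsum]
    calc n = ∑ _v : Fin n, 1 := by simp
      _ ≤ _ := sum_le_sum (fun v _ => hdeg1 v)
  set s := Real.sqrt N with hs
  have hs2 : s ^ 2 = N := Real.sq_sqrt (Nat.cast_nonneg N)
  have hs0 : 0 ≤ s := Real.sqrt_nonneg _
  have hs1 : (100000000000 : ℝ) ≤ s := by
    apply Real.le_sqrt_of_sq_le
    have h : (30000000000000000000000 : ℝ) ≤ 3 * N := by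
      have : 30000000000000000000000 ≤ 3 * N := hn.trans hn3N
      exact_mod_cast this
    norm_num
    linarith
  -- maximum degree
  have hmax : ∀ v, (deg F v : ℝ) ≤ 4 * s := by
    intro v
    have h := deg_sq hF hws hn7 v
    rw [← hN] at h
    have h' : deg F v * deg F v ≤ 6 * N + deg F v := by omega
    have h'' : (deg F v : ℝ) * deg F v ≤ 6 * N + deg F v := by exact_mod_cast h'
    by_contra hcon
    push Not at hcon
    nlinarith
  obtain ⟨D, hD, hD4⟩ : ∃ D : ℕ, (∀ v, deg F v ≤ D) ∧ (D : ℝ) ≤ 4 * s := by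
    refine ⟨Nat.floor (4 * s), ?_, Nat.floor_le (by positivity)⟩
    intro v
    exact Nat.le_floor (hmax v)
  -- every triple has a vertex of large degree
  have hlarge : ∀ T ∈ F, ∃ a ∈ T, s / 50 ≤ (deg F a : ℝ) := by
    intro T hT
    by_contra hcon
    push Not at hcon
    have h := reach hF hws hn7 hT hD
    rw [← hN] at h
    have h' : (N : ℝ) ≤ 1 + ∑ a ∈ T, (deg F a : ℝ) * (3 * D) := by exact_mod_cast h
    have h3 : ∑ a ∈ T, (deg F a : ℝ) * (3 * D) ≤ ∑ _a ∈ T, (s / 50) * (3 * (4 * s)) := by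
      apply sum_le_sum
      intro a ha
      apply mul_le_mul (hcon a ha).le (by linarith) (by positivity) (by positivity)
    rw [sum_const, hF.1 T hT, nsmul_eq_mul] at h3
    push_cast at h3
    nlinarith
  -- the set of vertices of large degree
  set A : Finset (Fin n) := univ.filter (fun v => s / 400 ≤ (deg F v : ℝ)) with hA
  have hA2 : ∀ T ∈ F, 2 ≤ (T ∩ A).card := by
    intro T hT
    obtain ⟨v, hv, hv50⟩ := hlarge T hT
    have h : ∃ a ∈ T.erase v, s / 400 ≤ (deg F a : ℝ) := by
      by_contra hcon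
      push Not at hcon
      have h := second hF hws hn7 hT hv
      have h' : (deg F v : ℝ) ≤ 1 + ∑ a ∈ T.erase v, (deg F a : ℝ) * 3 := by exact_mod_cast h
      have h3 : ∑ a ∈ T.erase v, (deg F a : ℝ) * 3 ≤ ∑ _a ∈ T.erase v, (s / 400) * 3 := by
        apply sum_le_sum
        intro a ha
        have := (hcon a ha).le
        linarith
      rw [sum_const, card_erase_of_mem hv, hF.1 T hT, nsmul_eq_mul] at h3
      norm_num at h3
      linarith
    obtain ⟨a, ha, ha400⟩ := h
    rw [mem_erase] at ha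
    have hsub : ({v, a} : Finset (Fin n)) ⊆ T ∩ A := by
      intro w hw
      rw [mem_insert, mem_singleton] at hw
      rw [mem_inter, hA, mem_filter]
      rcases hw with rfl | rfl
      · exact ⟨hv, mem_univ _, by linarith⟩
      · exact ⟨ha.2, mem_univ _, ha400⟩
    have h3 := card_le_card hsub
    rwa [card_pair ha.1.symm] at h3
  have hAc : ∀ T ∈ F, (T ∩ Aᶜ).card ≤ 1 := by
    intro T hT
    have h := hA2 T hT
    have h3 : (T ∩ A).card + (T ∩ Aᶜ).card = T.card := by
      rw [← card_union_of_disjoint, ← inter_union_distrib_left, union_compl, inter_univ]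
      exact disjoint_of_subset_left inter_subset_right
        (disjoint_of_subset_right inter_subset_right disjoint_compl_right)
    rw [hF.1 T hT] at h3
    omega
  have hAcard : (A.card : ℝ) ≤ 1200 * s := by
    have h : (A.card : ℝ) * (s / 400) ≤ 3 * N := by
      have h3 : (3 * N : ℝ) = ∑ v : Fin n, (deg F v : ℝ) := by exact_mod_cast hsum.symm
      rw [h3, ← nsmul_eq_mul, ← sum_const]
      refine (sum_le_sum (fun v hv => ?_)).trans
        (sum_le_sum_of_subset_of_nonneg (subset_univ A) (fun _ _ _ => Nat.cast_nonneg _))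
      rw [hA, mem_filter] at hv
      exact hv.2
    rw [← hs2] at h
    have : (A.card : ℝ) * s ≤ 1200 * s * s := by linarith
    exact le_of_mul_le_mul_right this (by linarith)
  -- the two kinds of triples
  set G1 := F.filter (fun T => ∃ b ∈ T, deg F b = 1) with hG1
  set G0 := F.filter (fun T => ¬ ∃ b ∈ T, deg F b = 1) with hG0
  set t := G0.card with ht
  have hsplit : G1.card + t = N := by
    rw [hG1, ht, hG0, hN]
    exact card_filter_add_card_filter_not _
  -- counting the vertices outside `A`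
  have hcount : 2 * (Aᶜ).card ≤ 2 * G1.card + t := by
    have h3 : ∀ v ∈ Aᶜ, 2 ≤ 2 * (G1.filter (fun T => v ∈ T)).card +
        (G0.filter (fun T => v ∈ T)).card := by
      intro v _
      by_contra hcon
      have h4 : (G1.filter (fun T => v ∈ T)).card = 0 := by omega
      have h5 : (G0.filter (fun T => v ∈ T)).card ≤ 1 := by omega
      have h6 : deg F v = (G1.filter (fun T => v ∈ T)).card +
          (G0.filter (fun T => v ∈ T)).card := by
        unfold deg
        rw [hG1, hG0, filter_filter, filter_filter,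
          ← card_filter_add_card_filter_not (s := F.filter (fun T => v ∈ T))
            (fun T => ∃ b ∈ T, deg F b = 1), filter_filter, filter_filter]
        congr 2
        · apply filter_congr
          intro T _
          tauto
        · apply filter_congr
          intro T _
          tauto
      have h7 := hdeg1 v
      have h8 : deg F v = 1 := by omega
      have h9 : (F.filter (fun T => v ∈ T)).Nonempty := by
        rw [← card_pos]
        exact h7
      obtain ⟨T, hT⟩ := h9
      rw [mem_filter] at hT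
      rw [card_eq_zero, filter_eq_empty_iff] at h4
      apply h4 (x := T) _ hT.2
      rw [hG1, mem_filter]
      exact ⟨hT.1, v, hT.2, h8⟩
    have h4 := sum_le_sum h3
    rw [sum_const, smul_eq_mul, sum_add_distrib, ← mul_sum, dc, dc] at h4
    have h5 : ∑ T ∈ G1, (T ∩ Aᶜ).card ≤ G1.card := by
      rw [card_eq_sum_ones]
      exact sum_le_sum (fun T hT => hAc T (mem_filter.mp hT).1)
    have h6 : ∑ T ∈ G0, (T ∩ Aᶜ).card ≤ t := by
      rw [ht, card_eq_sum_ones]
      exact sum_le_sum (fun T hT => hAc T (mem_filter.mp hT).1)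
    omega
  have hncount : 2 * n + t ≤ 2 * A.card + 2 * N := by
    have h3 : A.card + (Aᶜ).card = n := by
      rw [card_add_card_compl, Fintype.card_fin]
    omega
  -- many triples without a vertex of degree one
  have htbig : (N : ℝ) / 17280000 ≤ t := by
    by_cases hhalf : (N : ℝ) / 2 ≤ t
    · have : (0 : ℝ) ≤ N := Nat.cast_nonneg _
      linarith
    · push Not at hhalf
      have hG1r : (N : ℝ) ≤ 2 * G1.card := by
        have : (G1.card : ℝ) + t = N := by exact_mod_cast hsplit
        linarith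
      have h3 : 2 * G1.card ≤ ∑ v ∈ A, (G1.filter (fun T => v ∈ T)).card := by
        rw [dc, mul_comm, ← smul_eq_mul, ← sum_const]
        exact sum_le_sum (fun T hT => hA2 T (mem_filter.mp hT).1)
      have h4 : ∃ v ∈ A, s / 1200 ≤ ((G1.filter (fun T => v ∈ T)).card : ℝ) := by
        by_contra hcon
        push Not at hcon
        have h5 : (2 * G1.card : ℝ) ≤ ∑ v ∈ A, ((G1.filter (fun T => v ∈ T)).card : ℝ) := by
          exact_mod_cast h3
        have hAne : A.Nonempty := by
          by_contra hne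
          rw [not_nonempty_iff_eq_empty] at hne
          rw [hne, sum_empty] at h5
          have : (0 : ℝ) < N := by
            rw [← hs2]
            positivity
          linarith
        have h6 : ∑ v ∈ A, ((G1.filter (fun T => v ∈ T)).card : ℝ) < ∑ _v ∈ A, s / 1200 :=
          sum_lt_sum_of_nonempty hAne hcon
        rw [sum_const, nsmul_eq_mul] at h6
        have h7 : (A.card : ℝ) * (s / 1200) ≤ 1200 * s * (s / 1200) :=
          mul_le_mul_of_nonneg_right hAcard (by positivity)
        have h8 : 1200 * s * (s / 1200) = N := by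
          rw [← hs2]
          ring
        linarith
      obtain ⟨v, -, hv⟩ := h4
      have h5 := cherry hF hws hn7 v
      rw [← hG1, ← hG0, ← ht] at h5
      set d := (G1.filter (fun T => v ∈ T)).card with hd
      have h6 : (d : ℝ) * d ≤ 6 * t + d := by
        have : d * d ≤ 6 * t + d := by omega
        exact_mod_cast this
      have h7 : (2 : ℝ) ≤ d := by linarith
      have h8 : (d : ℝ) ^ 2 / 2 ≤ 6 * t := by nlinarith
      have h9 : (s / 1200) ^ 2 ≤ (d : ℝ) ^ 2 := pow_le_pow_left₀ (by positivity) hv 2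
      have h10 : (s / 1200) ^ 2 = N / 1440000 := by
        rw [div_pow, hs2]
        norm_num
      rw [h10] at h9
      linarith
  have hfin : (2 * n : ℝ) + t ≤ 2 * A.card + 2 * N := by exact_mod_cast hncount
  have h3 : 2400 * s ≤ (N : ℝ) / 34560000 := by
    rw [← hs2]
    nlinarith
  have h4 : (2 * n : ℝ) ≤ 2 * N - N / 34560000 := by linarith
  have hN0 : (0 : ℝ) ≤ N := Nat.cast_nonneg _
  have hn0 : (0 : ℝ) ≤ n := Nat.cast_nonneg _
  linarith

end basic

/-- There are an absolute constant `C > 1` and an `n₀` such that for all `n ≥ n₀` every weakly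
spreading linear triple system (with at least two triples) on `n` vertices has at least `C n`
triples. -/
theorem result : ∃ C : ℝ, 1 < C ∧ ∃ n₀ : ℕ, ∀ n : ℕ, n₀ ≤ n → ∀ F : Finset (Finset (Fin n)),
    IsLinearTripleSystem F → IsWeaklySpreading F → 2 ≤ F.card → C * n ≤ F.card :=
  ⟨1 + 1 / 69120000, by norm_num, 30000000000000000000000,
    fun _ hn _ hF hws h2 => main_bound hF hws h2 hn⟩

end Pool.Agent.Results.MP_9978f8_co.LinearLowerBound
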